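import Pool.Agent.Helper18.Dub.Small

/-!
# Classical generation implies quantum generation

If the classical cohomology algebra is generated by the classes `φ_a`, `a ∈ T`, and `c_1(X)`, then so
is the small quantum cohomology algebra.
-/

open scoped BigOperators
open Finset MvPowerSeries

namespace Pool.Agent.Helper93.QGen

open Pool.Agent.Helper18.Dub

variable {ι : Type} [Fintype ι] [DecidableEq ι] (X : FanoGW ι)

/-- The matrix of the classical cup product with `φ_a`. -/
noncomputable def cup (a : ι) : Matrix ι ι ℂ := Matrix.of fun k b =>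
  ∑ l, X.pair⁻¹ k l * X.inv X.zero {a, b, l}

theorem cup_apply (a k b : ι) : cup X a k b = ∑ l, X.pair⁻¹ k l * X.inv X.zero {a, b, l} := rfl

theorem cupMat_eq : X.cupMat = ∑ a, X.chern a • cup X a := by
  ext k b
  rw [Matrix.sum_apply]
  rfl

theorem cup_deg {a k b : ι} (h : cup X a k b ≠ 0) : X.deg k = X.deg a + X.deg b := by
  rw [cup_apply] at h
  obtain ⟨l, -, hl⟩ := Finset.exists_ne_zero_of_sum_ne_zero h
  have h1 : X.pair⁻¹ k l ≠ 0 := left_ne_zero_of_mul hl
  have h2 : X.inv X.zero {a, b, l} ≠ 0 := right_ne_zero_of_mul hl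
  have h4 := X.dimension _ _ h2
  rw [(X.c1_eq_zero X.zero).2 rfl] at h4
  have h5 := X.pairInv_deg k l h1
  have h6 : (({a, b, l} : Multiset ι).map X.deg).sum = X.deg a + (X.deg b + X.deg l) := by
    simp [Multiset.insert_eq_cons]
  have h7 : Multiset.card ({a, b, l} : Multiset ι) = 3 := rfl
  rw [h6, h7] at h4
  omega

theorem diff_deg {a k b : ι} (h : X.smallQH.m a b k ≠ cup X a k b) :
    X.deg k < X.deg a + X.deg b := by
  rw [X.smallQH_m, cup_apply, ← sub_ne_zero, ← Finset.sum_sub_distrib] at h
  obtain ⟨l, -, hl⟩ := Finset.exists_ne_zero_of_sum_ne_zero h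
  rw [← mul_sub] at hl
  have h1 : X.pair⁻¹ k l ≠ 0 := left_ne_zero_of_mul hl
  have h2 : X.corr {a, b, l} - X.inv X.zero {a, b, l} ≠ 0 := right_ne_zero_of_mul hl
  have h3 : ∃ β, β ≠ X.zero ∧ X.inv β {a, b, l} ≠ 0 := by
    by_contra hc
    push Not at hc
    apply h2
    rw [GWData.corr, finsum_eq_single _ X.zero (fun β hβ => hc β hβ), sub_self]
  obtain ⟨β, hβ0, hβ⟩ := h3
  have h4 := X.dimension β _ hβ
  have h5 := X.pairInv_deg k l h1
  have h6 : (({a, b, l} : Multiset ι).map X.deg).sum = X.deg a + (X.deg b + X.deg l) := by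
    simp [Multiset.insert_eq_cons]
  have h7 : Multiset.card ({a, b, l} : Multiset ι) = 3 := rfl
  have h8 : X.c1 β ≠ 0 := fun h0 => hβ0 ((X.c1_eq_zero β).1 h0)
  rw [h6, h7] at h4
  omega

/-- the component of degree `e` -/
noncomputable def prj (e : ℕ) (x : ι → ℂ) : ι → ℂ := fun k => if X.deg k = e then x k else 0

/-- `x` is homogeneous of degree `e` -/
def Hom (e : ℕ) (x : ι → ℂ) : Prop := ∀ k, x k ≠ 0 → X.deg k = e

theorem hom_prj (e : ℕ) (x : ι → ℂ) : Hom X e (prj X e x) := by
  intro k hk
  by_contra h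
  exact hk (if_neg h)

theorem prj_of_hom {e : ℕ} {x : ι → ℂ} (h : Hom X e x) : prj X e x = x := by
  funext k
  by_cases hk : X.deg k = e
  · exact if_pos hk
  · rw [prj, if_neg hk]
    by_contra h0
    exact hk (h k (Ne.symm h0))

/-- classical multiplication by the vector `u` -/
noncomputable def cupOp (u : ι → ℂ) : Matrix ι ι ℂ := ∑ a, u a • cup X a

theorem cupOp_apply (u : ι → ℂ) (k b : ι) : cupOp X u k b = ∑ a, u a * cup X a k b := by
  rw [cupOp, Matrix.sum_apply]
  rfl

theorem cupOp_deg {p : ℕ} {u : ι → ℂ} (hu : Hom X p u) {k b : ι} (h : cupOp X u k b ≠ 0) :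
    X.deg k = p + X.deg b := by
  rw [cupOp_apply] at h
  obtain ⟨a, -, ha⟩ := Finset.exists_ne_zero_of_sum_ne_zero h
  rw [cup_deg X (right_ne_zero_of_mul ha), hu a (left_ne_zero_of_mul ha)]

theorem prj_cupOp {p e : ℕ} {u : ι → ℂ} (hu : Hom X p u) (x : ι → ℂ) :
    prj X (p + e) ((cupOp X u).mulVec x) = (cupOp X u).mulVec (prj X e x) := by
  funext k
  rw [prj]
  simp only [Matrix.mulVec, dotProduct]
  split_ifs with hk
  · refine Finset.sum_congr rfl fun b _ => ?_
    by_cases h : cupOp X u k b = 0
    · rw [h, zero_mul, zero_mul]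
    · have h1 := cupOp_deg X hu h
      rw [prj, if_pos (by omega)]
  · symm
    refine Finset.sum_eq_zero fun b _ => ?_
    by_cases h : cupOp X u k b = 0
    · rw [h, zero_mul]
    · have h1 := cupOp_deg X hu h
      rw [prj, if_neg (by omega), mul_zero]

theorem prj_cupOp_lt {p e : ℕ} {u : ι → ℂ} (hu : Hom X p u) (he : e < p) (x : ι → ℂ) :
    prj X e ((cupOp X u).mulVec x) = 0 := by
  funext k
  rw [prj]
  split_ifs with hk
  · simp only [Matrix.mulVec, dotProduct]
    refine Finset.sum_eq_zero fun b _ => ?_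
    by_cases h : cupOp X u k b = 0
    · rw [h, zero_mul]
    · have h1 := cupOp_deg X hu h
      omega
  · rfl

/-- the quantum product differs from the classical one in lower degrees -/
theorem mul_sub_deg {p e : ℕ} {u x : X.smallQH.Carrier} (hu : Hom X p u) (hx : Hom X e x) (k : ι)
    (h : (u * x) k ≠ (cupOp X u).mulVec x k) : X.deg k < p + e := by
  rw [AlgStr.mul_apply, ← sub_ne_zero] at h
  have h1 : (∑ a, ∑ b, u a * x b * X.smallQH.m a b k) - (cupOp X u).mulVec x k =
      ∑ a, ∑ b, u a * x b * (X.smallQH.m a b k - cup X a k b) := by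
    simp only [Matrix.mulVec, dotProduct, cupOp_apply, Finset.sum_mul]
    rw [Finset.sum_comm (s := univ) (t := univ) (f := fun b a => u a * cup X a k b * x b),
      ← Finset.sum_sub_distrib]
    refine Finset.sum_congr rfl fun a _ => ?_
    rw [← Finset.sum_sub_distrib]
    refine Finset.sum_congr rfl fun b _ => ?_
    ring
  rw [h1] at h
  obtain ⟨a, -, ha⟩ := Finset.exists_ne_zero_of_sum_ne_zero h
  obtain ⟨b, -, hb⟩ := Finset.exists_ne_zero_of_sum_ne_zero ha
  have h2 := left_ne_zero_of_mul hb
  have h3 := diff_deg X (sub_ne_zero.1 (right_ne_zero_of_mul hb))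
  rw [hu a (left_ne_zero_of_mul h2), hx b (right_ne_zero_of_mul h2)] at h3
  exact h3

/-- a vector is the sum of its homogeneous components -/
theorem sum_prj (x : ι → ℂ) {N : ℕ} (hN : ∀ k, x k ≠ 0 → X.deg k < N) :
    ∑ e ∈ Finset.range N, prj X e x = x := by
  funext k
  rw [Finset.sum_apply]
  by_cases hk : x k = 0
  · rw [hk]
    refine Finset.sum_eq_zero fun e _ => ?_
    rw [prj, hk, ite_self]
  · rw [Finset.sum_eq_single (X.deg k)]
    · exact if_pos rfl
    · intro e _ he
      exact if_neg (Ne.symm he)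
    · intro h
      exact absurd (Finset.mem_range.2 (hN k hk)) h

/-- a vector as a quantum cohomology class -/
def toQ (x : ι → ℂ) : X.smallQH.Carrier := x

theorem toQ_add (x y : ι → ℂ) : toQ X (x + y) = toQ X x + toQ X y := rfl

theorem toQ_sub (x y : ι → ℂ) : toQ X (x - y) = toQ X x - toQ X y := rfl

theorem toQ_smul (c : ℂ) (x : ι → ℂ) : toQ X (c • x) = c • toQ X x := rfl

theorem toQ_zero : toQ X 0 = 0 := rfl

theorem toQ_sum {α : Type*} (s : Finset α) (f : α → ι → ℂ) :
    toQ X (∑ a ∈ s, f a) = ∑ a ∈ s, toQ X (f a) := by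
  classical
  induction s using Finset.induction_on with
  | empty => rfl
  | insert a s ha ih => rw [Finset.sum_insert ha, Finset.sum_insert ha, toQ_add, ih]

theorem toQ_single : toQ X (Pi.single X.one 1) = 1 := by
  funext k
  rw [AlgStr.one_apply]
  change (Pi.single X.one 1 : ι → ℂ) k = if X.one = k then 1 else 0
  rw [Pi.single_apply]
  simp only [eq_comm]

theorem prj_add (e : ℕ) (x y : ι → ℂ) : prj X e (x + y) = prj X e x + prj X e y := by
  funext k
  rw [Pi.add_apply, prj, prj, prj, Pi.add_apply]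
  split_ifs
  · rfl
  · rw [add_zero]

theorem prj_smul (e : ℕ) (c : ℂ) (x : ι → ℂ) : prj X e (c • x) = c • prj X e x := by
  funext k
  rw [Pi.smul_apply, prj, prj, Pi.smul_apply]
  split_ifs
  · rfl
  · rw [smul_zero]

theorem prj_zero (e : ℕ) : prj X e 0 = 0 := by
  funext k
  rw [prj, Pi.zero_apply, ite_self]

/-- General form: `U` is a set of homogeneous classes. -/
theorem quantum_generation {U : Set X.smallQH.Carrier} (hU : ∀ u ∈ U, ∃ p, Hom X p u)
    (h : ∀ W : Submodule ℂ (ι → ℂ), Pi.single X.one 1 ∈ W →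
      (∀ u ∈ U, ∀ w ∈ W, (cupOp X u).mulVec w ∈ W) → W = ⊤) :
    Algebra.adjoin ℂ U = ⊤ := by
  set 𝒜 := Algebra.adjoin ℂ U with h𝒜
  have key : ∀ e : ℕ, ∀ x : ι → ℂ, Hom X e x → toQ X x ∈ 𝒜 := by
    intro e
    induction e using Nat.strong_induction_on with
    | _ d ih =>
      have hlow : ∀ x : ι → ℂ, (∀ k, x k ≠ 0 → X.deg k < d) → toQ X x ∈ 𝒜 := by
        intro x hx
        rw [← sum_prj X x hx, toQ_sum]
        exact Subalgebra.sum_mem _ fun e he => ih e (Finset.mem_range.1 he) _ (hom_prj X e x)
      let W : Submodule ℂ (ι → ℂ) :=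
        { carrier := {x | ∀ e ≤ d, toQ X (prj X e x) ∈ 𝒜}
          zero_mem' := by
            intro e _
            rw [prj_zero, toQ_zero]
            exact zero_mem _
          add_mem' := by
            intro x y hx hy e he
            rw [prj_add, toQ_add]
            exact add_mem (hx e he) (hy e he)
          smul_mem' := by
            intro c x hx e he
            rw [prj_smul, toQ_smul]
            exact Subalgebra.smul_mem _ (hx e he) c }
      have hW : W = ⊤ := by
        apply h
        · intro e _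
          by_cases he : e = 0
          · subst he
            have h1 : Hom X 0 (Pi.single X.one 1) := by
              intro k hk
              by_cases hk1 : k = X.one
              · rw [hk1]; exact X.deg_one
              · exact absurd (Pi.single_eq_of_ne hk1 _) hk
            rw [prj_of_hom X h1, toQ_single]
            exact one_mem _
          · have h1 : prj X e (Pi.single X.one 1) = 0 := by
              funext k
              rw [prj]
              split_ifs with hk
              · by_cases hk1 : k = X.one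
                · rw [hk1, X.deg_one] at hk
                  exact absurd hk.symm he
                · exact Pi.single_eq_of_ne hk1 _
              · rfl
            rw [h1, toQ_zero]
            exact zero_mem _
        · intro u hu x hx e he
          obtain ⟨p, hp⟩ := hU u hu
          rcases lt_or_ge e p with hep | hep
          · rw [prj_cupOp_lt X hp hep x, toQ_zero]
            exact zero_mem _
          · obtain ⟨f, rfl⟩ := Nat.exists_eq_add_of_le hep
            rw [prj_cupOp X hp]
            have h1 : toQ X (prj X f x) ∈ 𝒜 := hx f (by omega)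
            have h2 : u * toQ X (prj X f x) ∈ 𝒜 := mul_mem (Algebra.subset_adjoin hu) h1
            have h3 : u * toQ X (prj X f x) - toQ X ((cupOp X u).mulVec (prj X f x)) ∈ 𝒜 := by
              refine hlow (fun k => (u * toQ X (prj X f x)) k -
                (cupOp X u).mulVec (prj X f x) k) ?_
              intro k hk
              have h5 := mul_sub_deg X (x := toQ X (prj X f x)) hp (hom_prj X f x) k
                (sub_ne_zero.1 hk)
              omega
            have h4 := sub_mem h2 h3
            rwa [sub_sub_cancel] at h4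
      intro x hx
      have hxW : x ∈ W := by rw [hW]; exact Submodule.mem_top
      have h1 := hxW d le_rfl
      rwa [prj_of_hom X hx] at h1
  refine eq_top_iff.2 fun x _ => ?_
  obtain ⟨N, hN⟩ : ∃ N, ∀ k, X.deg k < N :=
    ⟨(Finset.univ.sup X.deg) + 1, fun k => Nat.lt_succ_of_le (Finset.le_sup (Finset.mem_univ k))⟩
  have h1 : toQ X (∑ e ∈ Finset.range N, prj X e x) = x :=
    congrArg (toQ X) (sum_prj X x fun k _ => hN k)
  rw [← h1, toQ_sum]
  exact Subalgebra.sum_mem _ fun e _ => key e _ (hom_prj X e x)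

/-- If the classical cohomology is generated by the classes `φ_a`, `a ∈ T`, and `c_1(X)`, then so is
the small quantum cohomology. -/
theorem adjoin_eq_top {T : Set ι}
    (h : ∀ W : Submodule ℂ (ι → ℂ), Pi.single X.one 1 ∈ W →
      (∀ a ∈ T, ∀ w ∈ W, (cup X a).mulVec w ∈ W) → (∀ w ∈ W, X.cupMat.mulVec w ∈ W) → W = ⊤) :
    Algebra.adjoin ℂ ((fun a => X.smallQH.basis a) '' T ∪ {X.c1class}) = ⊤ := by
  have hsing : ∀ a, cupOp X (X.smallQH.basis a) = cup X a := by
    intro a
    ext k b
    rw [cupOp_apply, Finset.sum_eq_single a]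
    · rw [AlgStr.basis_apply, if_pos rfl, one_mul]
    · intro c _ hc
      rw [AlgStr.basis_apply, if_neg (Ne.symm hc), zero_mul]
    · intro h0
      exact absurd (Finset.mem_univ _) h0
  refine quantum_generation X ?_ ?_
  · rintro u (⟨a, -, rfl⟩ | rfl)
    · refine ⟨X.deg a, fun k hk => ?_⟩
      by_cases hka : a = k
      · rw [hka]
      · exact absurd (show X.smallQH.basis a k = 0 by rw [AlgStr.basis_apply, if_neg hka]) hk
    · exact ⟨1, fun k hk => X.chern_deg k hk⟩
  · intro W h1 hW
    refine h W h1 (fun a ha w hw => ?_) (fun w hw => ?_)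
    · have := hW _ (Or.inl ⟨a, ha, rfl⟩) w hw
      rwa [hsing] at this
    · have := hW _ (Or.inr rfl) w hw
      have h2 : cupOp X X.c1class = X.cupMat := by rw [cupMat_eq]; rfl
      rwa [h2] at this

/-- The version for `ι = κ ⊕ ν` and the classes `φ_a`, `a ∈ κ`. -/
theorem adjoin_inl_eq_top {κ ν : Type} [Fintype κ] [DecidableEq κ] [Fintype ν] [DecidableEq ν]
    (X : FanoGW (κ ⊕ ν))
    (h : ∀ W : Submodule ℂ (κ ⊕ ν → ℂ), Pi.single X.one 1 ∈ W →
      (∀ a : κ, ∀ w ∈ W, (cup X (Sum.inl a)).mulVec w ∈ W) →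
      (∀ w ∈ W, X.cupMat.mulVec w ∈ W) → W = ⊤) :
    Algebra.adjoin ℂ ((Set.range fun a : κ => X.smallQH.basis (Sum.inl a)) ∪ {X.c1class}) = ⊤ := by
  have h1 := adjoin_eq_top X (T := Set.range (Sum.inl : κ → κ ⊕ ν)) (fun W h2 h3 h4 =>
    h W h2 (fun a => h3 _ ⟨a, rfl⟩) h4)
  rwa [← Set.range_comp] at h1

end Pool.Agent.Helper93.QGen
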