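import Mathlib

set_option autoImplicit false

namespace Pool.Agent.Helper93.KDet

open Cardinal Set Topology

/-- A set of cardinality `ℵ_{n+1}`. -/
def S (n : ℕ) : Type := (Cardinal.aleph (Order.succ (n : Ordinal.{0}))).out

theorem mk_S (n : ℕ) : #(S n) = ℵ_ (Order.succ (n : Ordinal.{0})) := Cardinal.mk_out _

theorem mk_S' (n : ℕ) : #(S n) = Order.succ (ℵ_ (n : Ordinal.{0})) := by
  rw [mk_S, Order.succ_eq_add_one, ← Cardinal.succ_aleph]

/-- A subset of `S n` is small if its cardinality is at most `ℵ_n`. -/
def Small (n : ℕ) (s : Set (S n)) : Prop := #s ≤ ℵ_ (n : Ordinal.{0})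

theorem not_small_univ (n : ℕ) : ¬ Small n Set.univ := by
  unfold Small
  rw [Cardinal.mk_univ, mk_S']
  exact not_le.mpr (Order.lt_succ _)

theorem Small.mono {n : ℕ} {s t : Set (S n)} (h : s ⊆ t) (ht : Small n t) : Small n s :=
  (Cardinal.mk_le_mk_of_subset h).trans ht

theorem Small.union {n : ℕ} {s t : Set (S n)} (hs : Small n s) (ht : Small n t) :
    Small n (s ∪ t) := by
  refine (Cardinal.mk_union_le s t).trans ?_
  exact Cardinal.add_le_of_le (Cardinal.aleph0_le_aleph _) hs ht

theorem Small.iUnion {n : ℕ} {ι : Type} {s : ι → Set (S n)} (hι : #ι ≤ ℵ_ (n : Ordinal.{0}))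
    (hs : ∀ i, Small n (s i)) : Small n (⋃ i, s i) := by
  refine (Cardinal.mk_iUnion_le s).trans ?_
  refine Cardinal.mul_le_of_le (Cardinal.aleph0_le_aleph _) hι ?_
  exact ciSup_le' hs

theorem small_singleton (n : ℕ) (x : S n) : Small n {x} := by
  unfold Small
  rw [Cardinal.mk_singleton]
  exact (Cardinal.one_le_aleph0).trans (Cardinal.aleph0_le_aleph _)

theorem small_empty (n : ℕ) : Small n ∅ := by
  unfold Small
  simp

/-- The topology on `S n`: the closed sets are the small sets and the whole space. -/
instance instTopS (n : ℕ) : TopologicalSpace (S n) :=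
  TopologicalSpace.ofClosed {s | s = Set.univ ∨ Small n s}
    (Or.inr (small_empty n))
    (by
      intro A hA
      by_cases h : ∃ s ∈ A, Small n s
      · obtain ⟨s, hsA, hs⟩ := h
        exact Or.inr (Small.mono (Set.sInter_subset_of_mem hsA) hs)
      · left
        push Not at h
        apply Set.sInter_eq_univ.mpr
        intro s hs
        exact (hA hs).resolve_right (h s hs))
    (by
      rintro s (hs | hs) t (ht | ht)
      · left; simp [hs]
      · left; simp [hs]
      · left; simp [ht]
      · exact Or.inr (hs.union ht))

theorem isClosed_S {n : ℕ} {s : Set (S n)} : IsClosed s ↔ s = Set.univ ∨ Small n s := by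
  rw [← isOpen_compl_iff]
  change sᶜᶜ ∈ {s | s = Set.univ ∨ Small n s} ↔ _
  rw [compl_compl]
  rfl

/-- The topology on `Option (S n)`; this is the sobrification of `S n`, the point `none`
being the generic point. The closed sets are the whole space and the
images of the small sets. -/
instance instTopOS (n : ℕ) : TopologicalSpace (Option (S n)) :=
  TopologicalSpace.ofClosed {s | s = Set.univ ∨ (none ∉ s ∧ Small n (some ⁻¹' s))}
    (Or.inr ⟨by simp, by simpa using small_empty n⟩)
    (by
      intro A hA
      by_cases h : ∃ s ∈ A, none ∉ s ∧ Small n (some ⁻¹' s)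
      · obtain ⟨s, hsA, hns, hs⟩ := h
        refine Or.inr ⟨fun hh => hns (hh s hsA), Small.mono ?_ hs⟩
        exact Set.preimage_mono (Set.sInter_subset_of_mem hsA)
      · left
        push Not at h
        apply Set.sInter_eq_univ.mpr
        intro s hs
        refine (hA hs).resolve_right (fun hh => h s hs hh.1 hh.2))
    (by
      rintro s (hs | ⟨hs1, hs2⟩) t (ht | ⟨ht1, ht2⟩)
      · left; simp [hs]
      · left; simp [hs]
      · left; simp [ht]
      · right
        refine ⟨by simp [hs1, ht1], ?_⟩
        rw [Set.preimage_union]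
        exact hs2.union ht2)

theorem isClosed_OS {n : ℕ} {s : Set (Option (S n))} :
    IsClosed s ↔ s = Set.univ ∨ (none ∉ s ∧ Small n (some ⁻¹' s)) := by
  rw [← isOpen_compl_iff]
  change sᶜᶜ ∈ {s | s = Set.univ ∨ (none ∉ s ∧ Small n (some ⁻¹' s))} ↔ _
  rw [compl_compl]
  rfl

theorem isClosed_image_some {n : ℕ} {s : Set (S n)} (hs : Small n s) :
    IsClosed (some '' s : Set (Option (S n))) := by
  rw [isClosed_OS]
  right
  refine ⟨by simp, ?_⟩
  rwa [Set.preimage_image_eq _ (Option.some_injective _)]

theorem none_mem_of_isOpen {n : ℕ} {U : Set (Option (S n))} (hU : IsOpen U) (hne : U.Nonempty) :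
    none ∈ U := by
  have := (isClosed_OS.mp hU.isClosed_compl)
  rcases this with h | h
  · exfalso
    obtain ⟨x, hx⟩ := hne
    have : x ∈ Uᶜ := by rw [h]; trivial
    exact this hx
  · by_contra hh
    exact h.1 hh

theorem infinite_S (n : ℕ) : Infinite (S n) := by
  rw [Cardinal.infinite_iff, mk_S]
  exact Cardinal.aleph0_le_aleph _

theorem irreducible_S {n : ℕ} {s t : Set (S n)} (hs : IsClosed s) (ht : IsClosed t)
    (h : s ∪ t = Set.univ) : s = Set.univ ∨ t = Set.univ := by
  rw [isClosed_S] at hs ht
  rcases hs with hs | hs
  · exact Or.inl hs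
  rcases ht with ht | ht
  · exact Or.inr ht
  exact absurd (h ▸ hs.union ht) (not_small_univ n)

instance (n : ℕ) : T1Space (S n) := ⟨fun x => isClosed_S.mpr (Or.inr (small_singleton n x))⟩

instance (n : ℕ) : T0Space (Option (S n)) := by
  constructor
  intro x y hxy
  rcases x with _ | x <;> rcases y with _ | y
  · rfl
  · exfalso
    have hc : IsClosed ({some y} : Set (Option (S n))) := by
      have := isClosed_image_some (small_singleton n y)
      simpa using this
    have := (hxy.mem_closed_iff hc).mpr rfl
    simp at this
  · exfalso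
    have hc : IsClosed ({some x} : Set (Option (S n))) := by
      have := isClosed_image_some (small_singleton n x)
      simpa using this
    have := (hxy.mem_closed_iff hc).mp rfl
    simp at this
  · have hc : IsClosed ({some x} : Set (Option (S n))) := by
      have := isClosed_image_some (small_singleton n x)
      simpa using this
    have := (hxy.mem_closed_iff hc).mp rfl
    simp at this
    rw [this]

theorem fib_small {i j : ℕ} (g : S i → Option (S j)) (hg : Continuous g)
    (hnc : ∀ s : S j, ¬ ∀ x, g x = some s) (s : S j) : Small i {x | g x = some s} := by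
  have hc : IsClosed ({some s} : Set (Option (S j))) := by
    have := isClosed_image_some (small_singleton j s)
    simpa using this
  have := isClosed_S.mp (hc.preimage hg)
  rcases this with h | h
  · exact absurd (fun x => (Set.eq_univ_iff_forall.mp h x)) (hnc s)
  · exact h

/-- A continuous map `S i → Option (S j)` with small range not containing the generic point
is constant. -/
theorem const_of_small {i j : ℕ} (g : S i → Option (S j)) (hg : Continuous g)
    (C : Set (S j)) (hC : Small j C) (hCr : ∀ x, g x ∈ (some '' C : Set (Option (S j)))) :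
    ∃ s : S j, ∀ x, g x = some s := by
  by_contra hcon
  push Not at hcon
  have hnc : ∀ s : S j, ¬ ∀ x, g x = some s := by
    intro s hs
    obtain ⟨x, hx⟩ := hcon s
    exact hx (hs x)
  have hfib := fib_small g hg hnc
  obtain ⟨x0⟩ : Nonempty (S i) := (infinite_S i).nonempty
  obtain ⟨s, _, hs⟩ := hCr x0
  have h2 := (isClosed_image_some (hC.mono (Set.sdiff_subset : C \ {s} ⊆ C))).preimage hg
  have hun : {x | g x = some s} ∪ g ⁻¹' (some '' (C \ {s})) = Set.univ := by
    apply Set.eq_univ_of_forall
    intro x
    by_cases hx : g x = some s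
    · exact Or.inl hx
    · right
      obtain ⟨t, htC, ht⟩ := hCr x
      refine ⟨t, ⟨htC, ?_⟩, ht⟩
      intro hts
      apply hx
      rw [← ht, hts]
  rcases isClosed_S.mp h2 with h3 | h3
  · have : x0 ∈ g ⁻¹' (some '' (C \ {s})) := by rw [h3]; trivial
    obtain ⟨t, ⟨_, hts⟩, ht⟩ := this
    rw [← hs] at ht
    exact hts (Option.some_injective _ ht)
  · exact not_small_univ i (hun ▸ (hfib s).union h3)

/-- Key lemma: a continuous map `S i → Option (S j)`, `i ≠ j`, that is not constant with a value
in `S j`, takes the generic value outside a small set. -/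
theorem key {i j : ℕ} (hij : i ≠ j) (g : S i → Option (S j)) (hg : Continuous g)
    (hnc : ∀ s : S j, ¬ ∀ x, g x = some s) : Small i {x | g x ≠ none} := by
  rcases lt_or_gt_of_ne hij with hlt | hgt
  · -- `i < j`: the range is small
    set C : Set (S j) := {s | ∃ x, g x = some s} with hC
    have hCsmall : Small j C := by
      have hsub : (some '' C : Set (Option (S j))) ⊆ Set.range g := by
        rintro _ ⟨s, ⟨x, hx⟩, rfl⟩
        exact ⟨x, hx⟩
      have h1 : #C = #(some '' C : Set (Option (S j))) :=
        (Cardinal.mk_image_eq (Option.some_injective _)).symm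
      unfold Small
      rw [h1]
      refine (Cardinal.mk_le_mk_of_subset hsub).trans ?_
      refine Cardinal.mk_range_le.trans ?_
      rw [mk_S]
      rw [Cardinal.aleph_le_aleph]
      rw [Order.succ_le_iff]
      exact_mod_cast hlt
    have hE : g ⁻¹' (some '' C) = {x | g x ≠ none} := by
      ext x
      constructor
      · rintro ⟨s, _, hs⟩
        simp [← hs]
      · intro hx
        obtain ⟨s, hs⟩ := Option.ne_none_iff_exists'.mp hx
        exact ⟨s, ⟨x, hs⟩, hs.symm⟩
    have hcl := isClosed_S.mp ((isClosed_image_some hCsmall).preimage hg)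
    rcases hcl with hcl | hcl
    · exfalso
      obtain ⟨s, hs⟩ := const_of_small g hg C hCsmall (fun x => by
        have : x ∈ g ⁻¹' (some '' C) := by rw [hcl]; trivial
        exact this)
      exact hnc s hs
    · rw [← hE]
      exact hcl
  · -- `j < i`
    have hE : {x | g x ≠ none} = ⋃ s : S j, {x | g x = some s} := by
      ext x
      simp [Option.ne_none_iff_exists']
    rw [hE]
    refine Small.iUnion ?_ (fib_small g hg hnc)
    rw [mk_S, Cardinal.aleph_le_aleph, Order.succ_le_iff]
    exact_mod_cast hgt

/-- The target space: points of the product of the sobrifications having only finitely many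
generic coordinates. -/
abbrev Y : Type := {y : ∀ n, Option (S n) // {n | y n = none}.Finite}

/-- The class `K`: all `T0` spaces `W` such that each `S n` is `W`-determined. -/
def K (W : Type) [TopologicalSpace W] : Prop :=
  T0Space W ∧ ∀ n, ∀ A : Set (S n), IsIrreducible A → IsClosed A →
    ∀ g : S n → W, Continuous g → ∃! w : W, closure (g '' A) = closure {w}

theorem K_of_sober (W : Type) [TopologicalSpace W] (h0 : T0Space W) (hs : QuasiSober W) : K W := by
  refine ⟨h0, ?_⟩
  intro n A hA _ g hg
  obtain ⟨w, hw⟩ := hs.sober (hA.image g hg.continuousOn).closure isClosed_closure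
  refine ⟨w, hw.def.symm, ?_⟩
  intro w' hw'
  have : closure {w'} = closure {w} := by rw [← hw', hw.def]
  exact (inseparable_iff_closure_eq.mpr this).eq

theorem specializes_none {n : ℕ} (x : Option (S n)) : (none : Option (S n)) ⤳ x := by
  rw [specializes_iff_forall_open]
  intro U hU hx
  exact none_mem_of_isOpen hU ⟨x, hx⟩

theorem Y_mem_K : K Y := by
  refine ⟨inferInstance, ?_⟩
  intro n A hA hAc g hg
  have huniq : ∀ w w' : Y, closure (g '' A) = closure {w} → closure (g '' A) = closure {w'} →
      w' = w := by
    intro w w' h h'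
    exact (inseparable_iff_closure_eq.mpr (h'.symm.trans h)).eq
  suffices hex : ∃ w : Y, closure (g '' A) = closure {w} by
    obtain ⟨w, hw⟩ := hex
    exact ⟨w, hw, fun w' hw' => huniq w w' hw hw'⟩
  rcases isClosed_S.mp hAc with hAu | hAs
  · subst hAu
    -- coordinates of `g`
    have hgj : ∀ j, Continuous (fun x => (g x).1 j) := fun j =>
      (continuous_apply j).comp (continuous_subtype_val.comp hg)
    classical
    let y : ∀ j, Option (S j) := fun j =>
      if h : ∃ s : S j, ∀ x, (g x).1 j = some s then some h.choose else none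
    have hy1 : ∀ j, (∃ s : S j, ∀ x, (g x).1 j = some s) → ∀ x, (g x).1 j = y j := by
      intro j h x
      have : y j = some h.choose := dif_pos h
      rw [this]
      exact h.choose_spec x
    have hy2 : ∀ j, (¬ ∃ s : S j, ∀ x, (g x).1 j = some s) → y j = none := by
      intro j h
      exact dif_neg h
    have hfin : {j | y j = none}.Finite := by
      -- a common point where all coordinates in question are generic
      let J := {j : ℕ // j ≠ n ∧ ∀ s : S j, ¬ ∀ x, (g x).1 j = some s}
      have hsm : Small n (⋃ j : J, {x | (g x).1 j.1 ≠ none}) := by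
        refine Small.iUnion ?_ ?_
        · exact (Cardinal.mk_le_aleph0).trans (Cardinal.aleph0_le_aleph _)
        · intro j
          exact key j.2.1.symm _ (hgj j.1) j.2.2
      have hne : (⋃ j : J, {x | (g x).1 j.1 ≠ none}) ≠ Set.univ := by
        intro h
        exact not_small_univ n (h ▸ hsm)
      obtain ⟨x0, hx0⟩ := (Set.ne_univ_iff_exists_notMem _).mp hne
      refine Set.Finite.subset ((g x0).2.union (Set.finite_singleton n)) ?_
      intro j hj
      by_cases hjn : j = n
      · exact Or.inr hjn
      · left
        have hnc : ∀ s : S j, ¬ ∀ x, (g x).1 j = some s := by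
          intro s hs
          have h1 := hy1 j ⟨s, hs⟩ x0
          have h2 : y j = none := hj
          rw [h2, hs x0] at h1
          exact Option.some_ne_none s h1
        by_contra hh
        exact hx0 (Set.mem_iUnion.mpr ⟨⟨j, hjn, hnc⟩, hh⟩)
    refine ⟨⟨y, hfin⟩, ?_⟩
    apply Set.Subset.antisymm
    · apply closure_minimal _ isClosed_closure
      rintro _ ⟨x, -, rfl⟩
      rw [← specializes_iff_mem_closure]
      rw [subtype_specializes_iff]
      rw [specializes_pi]
      intro j
      change y j ⤳ (g x).1 j
      by_cases h : ∃ s : S j, ∀ x, (g x).1 j = some s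
      · rw [hy1 j h x]
      · rw [hy2 j h]
        exact specializes_none _
    · apply closure_minimal _ isClosed_closure
      rw [Set.singleton_subset_iff, closure_subtype, mem_closure_iff]
      intro U hU hyU
      obtain ⟨I, u, hu, hIU⟩ := isOpen_pi_iff.mp hU y hyU
      have hV : ∀ j : I, Small n {x | (g x).1 j.1 ∈ u j.1}ᶜ := by
        intro j
        have hcl : IsClosed {x | (g x).1 j.1 ∈ u j.1}ᶜ :=
          ((hu j.1 j.2).1.preimage (hgj j.1)).isClosed_compl
        rcases isClosed_S.mp hcl with h | h
        · exfalso
          by_cases hc : ∃ s : S j.1, ∀ x, (g x).1 j.1 = some s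
          · obtain ⟨x0⟩ : Nonempty (S n) := (infinite_S n).nonempty
            have : x0 ∈ {x | (g x).1 j.1 ∈ u j.1}ᶜ := by rw [h]; trivial
            apply this
            change (g x0).1 j.1 ∈ u j.1
            rw [hy1 j.1 hc x0]
            exact (hu j.1 j.2).2
          · have hnone : none ∈ u j.1 := by
              have := (hu j.1 j.2).2
              rwa [hy2 j.1 hc] at this
            have hcu := isClosed_OS.mp (hu j.1 j.2).1.isClosed_compl
            rcases hcu with hcu | hcu
            · have : none ∈ (u j.1)ᶜ := by rw [hcu]; trivial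
              exact this hnone
            · apply hc
              refine const_of_small _ (hgj j.1) _ hcu.2 ?_
              intro x
              have hx : x ∈ {x | (g x).1 j.1 ∈ u j.1}ᶜ := by rw [h]; trivial
              have hx' : (g x).1 j.1 ∉ u j.1 := hx
              rcases hgx : (g x).1 j.1 with _ | s
              · exact absurd (hgx ▸ hnone) hx'
              · refine ⟨s, ?_, rfl⟩
                rw [hgx] at hx'
                exact hx'
        · exact h
      have hsm : Small n (⋃ j : I, {x | (g x).1 j.1 ∈ u j.1}ᶜ) := by
        refine Small.iUnion ?_ hV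
        exact (Cardinal.mk_le_aleph0).trans (Cardinal.aleph0_le_aleph _)
      have hne : (⋃ j : I, {x | (g x).1 j.1 ∈ u j.1}ᶜ) ≠ Set.univ := by
        intro h
        exact not_small_univ n (h ▸ hsm)
      obtain ⟨x0, hx0⟩ := (Set.ne_univ_iff_exists_notMem _).mp hne
      refine ⟨(g x0).1, hIU ?_, ⟨g x0, ⟨x0, trivial, rfl⟩, rfl⟩⟩
      intro j hj
      by_contra hh
      exact hx0 (Set.mem_iUnion.mpr ⟨⟨j, hj⟩, hh⟩)
  · -- small irreducible closed sets are singletons
    obtain ⟨x, hx⟩ := hA.nonempty
    have h2 : A ⊆ {x} := by
      have hpre := hA.isPreirreducible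
      rw [isPreirreducible_iff_isClosed_union_isClosed] at hpre
      have hcx : IsClosed ({x} : Set (S n)) := isClosed_S.mpr (Or.inr (small_singleton n x))
      have hcd : IsClosed (A \ {x}) := isClosed_S.mpr (Or.inr (hAs.mono Set.sdiff_subset))
      rcases hpre {x} (A \ {x}) hcx hcd (fun z hz => by
        by_cases hzx : z = x
        · exact Or.inl hzx
        · exact Or.inr ⟨hz, hzx⟩) with h | h
      · exact h
      · exact absurd rfl (h hx).2
    have h3 : A = {x} := Set.Subset.antisymm h2 (by simpa using hx)
    refine ⟨g x, ?_⟩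
    rw [h3, Set.image_singleton]

/-- The product of the spaces `S n` is irreducible. -/
theorem irreducible_pi : IsIrreducible (Set.univ : Set (∀ n, S n)) := by
  refine ⟨?_, ?_⟩
  · have hne := fun n => (infinite_S n).nonempty
    exact Set.univ_nonempty
  · rintro U V hU hV ⟨a, -, ha⟩ ⟨b, -, hb⟩
    obtain ⟨I, u, hu, hIU⟩ := isOpen_pi_iff.mp hU a ha
    obtain ⟨J, v, hv, hJV⟩ := isOpen_pi_iff.mp hV b hb
    classical
    have hz : ∀ n, ∃ z : S n, (n ∈ I → z ∈ u n) ∧ (n ∈ J → z ∈ v n) := by
      intro n
      by_cases hI : n ∈ I
      · by_cases hJ : n ∈ J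
        · have h1 : (u n)ᶜ ≠ Set.univ := by
            intro h
            have : a n ∈ (u n)ᶜ := by rw [h]; trivial
            exact this (hu n hI).2
          have h2 : (v n)ᶜ ≠ Set.univ := by
            intro h
            have : b n ∈ (v n)ᶜ := by rw [h]; trivial
            exact this (hv n hJ).2
          have h3 : (u n)ᶜ ∪ (v n)ᶜ ≠ Set.univ := by
            intro h
            rcases irreducible_S (hu n hI).1.isClosed_compl (hv n hJ).1.isClosed_compl h with h | h
            · exact h1 h
            · exact h2 h
          obtain ⟨z, hz⟩ := (Set.ne_univ_iff_exists_notMem _).mp h3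
          refine ⟨z, fun _ => ?_, fun _ => ?_⟩
          · by_contra hh
            exact hz (Or.inl hh)
          · by_contra hh
            exact hz (Or.inr hh)
        · exact ⟨a n, fun _ => (hu n hI).2, fun h => absurd h hJ⟩
      · by_cases hJ : n ∈ J
        · exact ⟨b n, fun h => absurd h hI, fun _ => (hv n hJ).2⟩
        · exact ⟨a n, fun h => absurd h hI, fun h => absurd h hJ⟩
    choose z hz using hz
    exact ⟨z, trivial, hIU (fun n hn => (hz n).1 hn), hJV (fun n hn => (hz n).2 hn)⟩

theorem continuous_some (n : ℕ) : Continuous (some : S n → Option (S n)) := by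
  rw [continuous_iff_isClosed]
  intro C hC
  rcases isClosed_OS.mp hC with h | h
  · rw [h]; exact isClosed_univ
  · exact isClosed_S.mpr (Or.inr h.2)

/-- The canonical map from the product to `Y`. -/
def emb (x : ∀ n, S n) : Y := ⟨fun n => some (x n), by simp⟩

theorem continuous_emb : Continuous emb :=
  Continuous.subtype_mk (continuous_pi fun n => (continuous_some n).comp (continuous_apply n)) _

theorem not_generic (y : Y) (h : closure (emb '' Set.univ) = closure {y}) : False := by
  obtain ⟨n, hn⟩ := y.2.exists_notMem
  obtain ⟨s, hs⟩ := Option.ne_none_iff_exists'.mp hn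
  have := infinite_S n
  obtain ⟨t, ht⟩ := exists_ne s
  classical
  have hne := fun n => (infinite_S n).nonempty
  let x : ∀ m, S m := Function.update (fun m => Classical.arbitrary (S m)) n t
  have hx : x n = t := by simp [x]
  have h1 : emb x ∈ closure {y} := by
    rw [← h]
    exact subset_closure ⟨x, trivial, rfl⟩
  rw [← specializes_iff_mem_closure, subtype_specializes_iff,
    specializes_pi] at h1
  have h2 := h1 n
  have hc : IsClosed ({some s} : Set (Option (S n))) := by
    have := isClosed_image_some (small_singleton n s)
    simpa using this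
  have h3 : y.1 n ∈ ({some s} : Set (Option (S n))) := by rw [hs]; rfl
  have h4 := h2.mem_closed hc h3
  have h5 : (emb x).1 n = some (x n) := rfl
  rw [h5, hx] at h4
  exact ht (Option.some_injective _ h4)

end Pool.Agent.Helper93.KDet
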