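import Mathlib
import Pool.Agent.Helper93.KDetU

set_option autoImplicit false

namespace Pool.Agent.Helper93.KDetU

universe u

open Set Topology

/-- A set `A` in `X` is determined by the class `K`: for every continuous map `f` from `X` to a space
`Y` in `K` the closure of `f A` is the closure of exactly one point of `Y`. -/
def DeterminedSet (K : ∀ (Y : Type u) [TopologicalSpace Y], Prop) {X : Type u} [TopologicalSpace X]
    (A : Set X) : Prop :=
  ∀ (Y : Type u) [TopologicalSpace Y], K Y → ∀ f : X → Y, Continuous f →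
    ∃! y : Y, closure (f '' A) = closure {y}

/-- A `T0` space all of whose irreducible closed sets are determined by the class `K`. -/
def DeterminedSpace (K : ∀ (Y : Type u) [TopologicalSpace Y], Prop) (X : Type u)
    [TopologicalSpace X] : Prop :=
  T0Space X ∧ ∀ A : Set X, IsIrreducible A → IsClosed A → DeterminedSet K A

/-- A class of `T0` spaces satisfying the conditions of Keimel and Lawson. -/
structure IsKeimelLawson (K : ∀ (Y : Type u) [TopologicalSpace Y], Prop) : Prop where
  t0 : ∀ (Y : Type u) [TopologicalSpace Y], K Y → T0Space Y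
  homeo : ∀ (Y Z : Type u) [TopologicalSpace Y] [TopologicalSpace Z], Y ≃ₜ Z → K Y → K Z
  sober : ∀ (Y : Type u) [TopologicalSpace Y], T0Space Y → QuasiSober Y → K Y
  inter : ∀ (Y : Type u) [TopologicalSpace Y], T0Space Y → QuasiSober Y →
    ∀ 𝒲 : Set (Set Y), (∀ W ∈ 𝒲, K W) → K (⋂₀ 𝒲)
  preimage : ∀ (Y Z : Type u) [TopologicalSpace Y] [TopologicalSpace Z], T0Space Y → QuasiSober Y →
    T0Space Z → QuasiSober Z → ∀ f : Y → Z, Continuous f → ∀ W : Set Z, K W → K (f ⁻¹' W)

theorem K_iff (W : Type u) [TopologicalSpace W] : K W ↔ T0Space W ∧ ∀ n, ∀ A : Set (S.{u} n),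
    IsIrreducible A → IsClosed A → ∀ g : S.{u} n → W, Continuous g →
      ∃ w : W, closure (g '' A) = closure {w} := by
  constructor
  · rintro ⟨h0, h⟩
    exact ⟨h0, fun n A hA hAc g hg => (h n A hA hAc g hg).exists⟩
  · rintro ⟨h0, h⟩
    refine ⟨h0, fun n A hA hAc g hg => ?_⟩
    obtain ⟨w, hw⟩ := h n A hA hAc g hg
    refine ⟨w, hw, fun w' hw' => ?_⟩
    exact (inseparable_iff_closure_eq.mpr (hw'.symm.trans hw)).eq

theorem eq_of_closure {X : Type u} [TopologicalSpace X] (h0 : T0Space X) {x y : X}
    (h : closure {x} = closure {y}) : x = y :=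
  (inseparable_iff_closure_eq.mpr h).eq

/-- Image under the inclusion. -/
theorem val_closure {X : Type u} [TopologicalSpace X] (W : Set X) (B : Set W) (w : W)
    (h : closure B = closure {w}) :
    closure ((Subtype.val : W → X) '' B) = closure {w.1} := by
  rw [← closure_image_closure continuous_subtype_val, h,
    closure_image_closure continuous_subtype_val, Set.image_singleton]

theorem closure_of_val {X : Type u} [TopologicalSpace X] (W : Set X) (B : Set W) (w : W)
    (h : closure ((Subtype.val : W → X) '' B) = closure {w.1}) :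
    closure B = closure {w} := by
  rw [Topology.IsInducing.subtypeVal.closure_eq_preimage_closure_image, h,
    Topology.IsInducing.subtypeVal.closure_eq_preimage_closure_image ({w} : Set W),
    Set.image_singleton]

theorem exists_sober {X : Type u} [TopologicalSpace X] (hs : QuasiSober X) {n : ℕ}
    {A : Set (S.{u} n)} (hA : IsIrreducible A) (g : S.{u} n → X) (hg : Continuous g) :
    ∃ x : X, closure (g '' A) = closure {x} := by
  obtain ⟨w, hw⟩ := hs.sober (hA.image g hg.continuousOn).closure isClosed_closure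
  exact ⟨w, hw.def.symm⟩

theorem keimelLawson : IsKeimelLawson K.{u} where
  t0 := fun Y _ hY => hY.1
  homeo := by
    intro Y Z _ _ e hY
    rw [K_iff] at hY ⊢
    have h0 := hY.1
    refine ⟨e.symm.isEmbedding.t0Space, fun n A hA hAc g hg => ?_⟩
    obtain ⟨y, hy⟩ := hY.2 n A hA hAc (e.symm ∘ g) (e.symm.continuous.comp hg)
    refine ⟨e y, ?_⟩
    have h1 : e '' closure ((e.symm ∘ g) '' A) = e '' closure {y} := by rw [hy]
    rw [e.image_closure, e.image_closure, Set.image_singleton, ← Set.image_comp] at h1
    have h2 : (e ∘ (e.symm ∘ g)) = g := by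
      ext x
      simp
    rwa [h2] at h1
  sober := fun Y _ h0 hs => K_of_sober Y h0 hs
  inter := by
    intro Y _ h0 hs 𝒲 hW
    rw [K_iff]
    refine ⟨inferInstance, fun n A hA hAc g hg => ?_⟩
    obtain ⟨s0, hs0⟩ := exists_sober hs hA (fun x => (g x).1) (continuous_subtype_val.comp hg)
    have hmem : s0 ∈ ⋂₀ 𝒲 := by
      rw [Set.mem_sInter]
      intro V hV
      have hK := (K_iff _).mp (hW V hV)
      let gV : S.{u} n → V := fun x => ⟨(g x).1, (Set.mem_sInter.mp (g x).2) V hV⟩
      have hgV : Continuous gV := Continuous.subtype_mk (continuous_subtype_val.comp hg) _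
      obtain ⟨v, hv⟩ := hK.2 n A hA hAc gV hgV
      have h1 := val_closure V (gV '' A) v hv
      rw [← Set.image_comp] at h1
      have h2 : closure {s0} = closure {v.1} := hs0.symm.trans h1
      rw [eq_of_closure h0 h2]
      exact v.2
    refine ⟨⟨s0, hmem⟩, closure_of_val _ _ _ ?_⟩
    rw [← Set.image_comp]
    exact hs0
  preimage := by
    intro Y Z _ _ h0 hs h0' hs' f hf W hW
    rw [K_iff] at hW ⊢
    refine ⟨inferInstance, fun n A hA hAc g hg => ?_⟩
    obtain ⟨s0, hs0⟩ := exists_sober hs hA (fun x => (g x).1) (continuous_subtype_val.comp hg)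
    let k : S.{u} n → W := fun x => ⟨f (g x).1, (g x).2⟩
    have hk : Continuous k :=
      Continuous.subtype_mk (hf.comp (continuous_subtype_val.comp hg)) _
    obtain ⟨w, hw⟩ := hW.2 n A hA hAc k hk
    have h1 := val_closure W (k '' A) w hw
    rw [← Set.image_comp] at h1
    have h2 : closure ((Subtype.val ∘ k) '' A) = closure {f s0} := by
      have h3 : (Subtype.val ∘ k) '' A = f '' ((fun x => (g x).1) '' A) := by
        rw [← Set.image_comp]
        rfl
      rw [h3, ← closure_image_closure hf, hs0, closure_image_closure hf, Set.image_singleton]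
    have h4 : f s0 = w.1 := eq_of_closure h0' (h2.symm.trans h1)
    have hmem : s0 ∈ f ⁻¹' W := by
      change f s0 ∈ W
      rw [h4]
      exact w.2
    refine ⟨⟨s0, hmem⟩, closure_of_val _ _ _ ?_⟩
    rw [← Set.image_comp]
    exact hs0

theorem K_pi (ι : Type u) (W : ι → Type u) [∀ i, TopologicalSpace (W i)] (hW : ∀ i, K (W i)) :
    K (∀ i, W i) := by
  rw [K_iff]
  have h0 : ∀ i, T0Space (W i) := fun i => (hW i).1
  refine ⟨inferInstance, fun n A hA hAc g hg => ?_⟩
  have hgi : ∀ i, Continuous (fun x => g x i) := fun i => (continuous_apply i).comp hg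
  have hex := fun i => ((K_iff _).mp (hW i)).2 n A hA hAc (fun x => g x i) (hgi i)
  choose w hw using hex
  refine ⟨w, ?_⟩
  apply Set.Subset.antisymm
  · apply closure_minimal _ isClosed_closure
    rintro _ ⟨x, hx, rfl⟩
    rw [← specializes_iff_mem_closure, specializes_pi]
    intro i
    rw [specializes_iff_mem_closure, ← hw i]
    exact subset_closure ⟨x, hx, rfl⟩
  · apply closure_minimal _ isClosed_closure
    rw [Set.singleton_subset_iff, mem_closure_iff]
    intro U hU hwU
    obtain ⟨I, v, hv, hIU⟩ := isOpen_pi_iff.mp hU w hwU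
    have hirr := isIrreducible_iff_sInter.mp hA
    classical
    obtain ⟨x, hxA, hx⟩ := hirr (I.image fun i => (fun x => g x i) ⁻¹' v i)
      (by
        intro s hs
        obtain ⟨i, hi, rfl⟩ := Finset.mem_image.mp hs
        exact (hv i hi).1.preimage (hgi i))
      (by
        intro s hs
        obtain ⟨i, hi, rfl⟩ := Finset.mem_image.mp hs
        have h1 : w i ∈ closure ((fun x => g x i) '' A) := by
          rw [hw i]
          exact subset_closure rfl
        obtain ⟨_, hy1, ⟨x, hxA, rfl⟩⟩ := mem_closure_iff.mp h1 (v i) (hv i hi).1 (hv i hi).2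
        exact ⟨x, hxA, hy1⟩)
    refine ⟨g x, hIU ?_, ⟨x, hxA, rfl⟩⟩
    intro i hi
    exact hx _ (Finset.mem_coe.mpr (Finset.mem_image_of_mem _ hi))

theorem determined_S (n : ℕ) : DeterminedSpace K.{u} (S.{u} n) :=
  ⟨inferInstance, fun A hA hAc _ _ hY f hf => hY.2 n A hA hAc f hf⟩

theorem not_determined : ¬ DeterminedSpace K.{u} (∀ n, S.{u} n) := by
  rintro ⟨-, h⟩
  obtain ⟨y, hy, -⟩ := h Set.univ irreducible_pi isClosed_univ Y Y_mem_K emb continuous_emb
  exact not_generic y hy

end Pool.Agent.Helper93.KDetU
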